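import Pool.Agent.Lib.MP_72b724_gt.Interfaces

/-!
# Module REG: the components of the preimages of the regions
-/

open scoped ENNReal Topology BigOperators Pointwise
open Set Filter Topology

namespace Pool.Agent.Lib.MP_72b724_gt.H62

noncomputable section

/-- Groups which embed in a group of subexponential growth have subexponential growth. -/
theorem subexp_of_injective {G H : Type} [Group G] [Group H] (φ : G →* H)
    (hφ : Function.Injective φ) (h : SubexpGrowth H) : SubexpGrowth G := by
  intro S hS b hb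
  filter_upwards [h (φ '' S) (hS.image φ) b hb] with k hk
  rw [← Set.image_pow] at hk
  rwa [Set.ncard_image_of_injective _ hφ] at hk

variable {M : Type} [TopologicalSpace M] {x₀ : M}

/-- Conjugation by a class of paths. -/
def cj {x y : M} (q : Path.Homotopic.Quotient x y) : FundamentalGroup M x →* FundamentalGroup M y where
  toFun g := FundamentalGroup.fromPath (q.symm.trans (g.toPath.trans q))
  map_one' := by
    change q.symm.trans ((Path.Homotopic.Quotient.refl x).trans q) = Path.Homotopic.Quotient.refl y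
    rw [Path.Homotopic.Quotient.refl_trans, Path.Homotopic.Quotient.symm_trans]
  map_mul' g h := by
    change q.symm.trans ((h.toPath.trans g.toPath).trans q) =
      (q.symm.trans (h.toPath.trans q)).trans (q.symm.trans (g.toPath.trans q))
    simp only [Path.Homotopic.Quotient.trans_assoc]
    rw [← Path.Homotopic.Quotient.trans_assoc q q.symm, Path.Homotopic.Quotient.trans_symm,
      Path.Homotopic.Quotient.refl_trans]

theorem cj_injective {x y : M} (q : Path.Homotopic.Quotient x y) : Function.Injective (cj q) := by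
  intro g h hgh
  have h1 : q.symm.trans (g.toPath.trans q) = q.symm.trans (h.toPath.trans q) := hgh
  have h2 := congrArg (fun r => (q.trans r).trans q.symm) h1
  simp only [← Path.Homotopic.Quotient.trans_assoc, Path.Homotopic.Quotient.trans_symm,
    Path.Homotopic.Quotient.refl_trans] at h2
  simp only [Path.Homotopic.Quotient.trans_assoc, Path.Homotopic.Quotient.trans_symm,
    Path.Homotopic.Quotient.trans_refl] at h2
  exact h2

theorem tr_one (p : Cov x₀) : Cov.tr 1 p = p := by
  obtain ⟨x, p⟩ := p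
  change (⟨x, ((1 : FundamentalGroup M x₀)⁻¹).toPath.trans p⟩ : Cov x₀) = ⟨x, p⟩
  rw [inv_one]
  change (⟨x, (Path.Homotopic.Quotient.refl x₀).trans p⟩ : Cov x₀) = ⟨x, p⟩
  rw [Path.Homotopic.Quotient.refl_trans]

theorem tr_mul (g h : FundamentalGroup M x₀) (p : Cov x₀) :
    Cov.tr (g * h) p = Cov.tr g (Cov.tr h p) := by
  obtain ⟨x, p⟩ := p
  change (⟨x, ((g * h)⁻¹ : FundamentalGroup M x₀).toPath.trans p⟩ : Cov x₀) =
    ⟨x, (g⁻¹ : FundamentalGroup M x₀).toPath.trans ((h⁻¹ : FundamentalGroup M x₀).toPath.trans p)⟩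
  rw [mul_inv_rev]
  change (⟨x, ((g⁻¹ : FundamentalGroup M x₀).toPath.trans
    (h⁻¹ : FundamentalGroup M x₀).toPath).trans p⟩ : Cov x₀) = _
  rw [Path.Homotopic.Quotient.trans_assoc]

theorem sameComp_refl {D : Set M} {p : Cov x₀} (h : p.1 ∈ D) : SameComp D p p :=
  ⟨Path.refl p.1, fun _ => h, by
    rw [Path.Homotopic.Quotient.mk_refl, Path.Homotopic.Quotient.trans_refl]⟩

theorem sameComp_symm {D : Set M} {p q : Cov x₀} (h : SameComp D p q) : SameComp D q p := by
  obtain ⟨γ, h1, h2⟩ := h
  refine ⟨γ.symm, fun t => by rw [Path.symm_apply]; exact h1 _, ?_⟩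
  rw [h2, Path.Homotopic.Quotient.mk_symm, Path.Homotopic.Quotient.trans_assoc,
    Path.Homotopic.Quotient.trans_symm, Path.Homotopic.Quotient.trans_refl]

theorem sameComp_trans {D : Set M} {p q r : Cov x₀} (h : SameComp D p q) (h' : SameComp D q r) :
    SameComp D p r := by
  obtain ⟨γ, h1, h2⟩ := h
  obtain ⟨γ', h1', h2'⟩ := h'
  refine ⟨γ.trans γ', fun t => ?_, ?_⟩
  · have h3 : (γ.trans γ') t ∈ range (γ.trans γ') := ⟨t, rfl⟩
    rw [Path.trans_range] at h3
    rcases h3 with ⟨s, hs⟩ | ⟨s, hs⟩
    · rw [← hs]; exact h1 s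
    · rw [← hs]; exact h1' s
  · rw [h2', h2, Path.Homotopic.Quotient.mk_trans, Path.Homotopic.Quotient.trans_assoc]

theorem sameComp_tr {D : Set M} {p q : Cov x₀} (h : SameComp D p q) (g : FundamentalGroup M x₀) :
    SameComp D (Cov.tr g p) (Cov.tr g q) := by
  obtain ⟨γ, h1, h2⟩ := h
  refine ⟨γ, h1, ?_⟩
  change (g⁻¹ : FundamentalGroup M x₀).toPath.trans q.2 =
    ((g⁻¹ : FundamentalGroup M x₀).toPath.trans p.2).trans _
  rw [h2]
  exact (Path.Homotopic.Quotient.trans_assoc _ _ _).symm

/-- The stabiliser of a component. -/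
theorem cj_mem_loopsIn {D : Set M} {p : Cov x₀} {g : FundamentalGroup M x₀}
    (h : SameComp D (Cov.tr g p) p) : cj p.2 g ∈ loopsIn D p.1 := by
  obtain ⟨γ, h1, h2⟩ := h
  apply Subgroup.subset_closure
  refine ⟨γ, h1, ?_⟩
  change p.2.symm.trans (g.toPath.trans p.2) = Path.Homotopic.Quotient.mk γ
  have h3 : p.2 = ((g⁻¹ : FundamentalGroup M x₀).toPath.trans p.2).trans
    (Path.Homotopic.Quotient.mk γ) := h2
  have h4 : (g.toPath.trans (g⁻¹ : FundamentalGroup M x₀).toPath) =
      Path.Homotopic.Quotient.refl x₀ := by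
    change g.toPath.trans g.toPath.symm = _
    rw [Path.Homotopic.Quotient.trans_symm]
  have h5 : g.toPath.trans p.2 = p.2.trans (Path.Homotopic.Quotient.mk γ) := by
    conv_lhs => rw [h3]
    rw [← Path.Homotopic.Quotient.trans_assoc, ← Path.Homotopic.Quotient.trans_assoc, h4,
      Path.Homotopic.Quotient.refl_trans]
  rw [h5, ← Path.Homotopic.Quotient.trans_assoc, Path.Homotopic.Quotient.symm_trans,
    Path.Homotopic.Quotient.refl_trans]
  rfl

/-- The points over `D`. -/
abbrev Over (x₀ : M) (D : Set M) : Type := {p : Cov x₀ // p.1 ∈ D}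

/-- The relation on the points over `D`. -/
def compSetoid (x₀ : M) (D : Set M) : Setoid (Over x₀ D) where
  r p q := SameComp D p.1 q.1
  iseqv :=
    { refl := fun p => sameComp_refl p.2
      symm := fun h => sameComp_symm h
      trans := fun h h' => sameComp_trans h h' }

/-- The components. -/
def Comp (x₀ : M) (D : Set M) : Type := Quotient (compSetoid x₀ D)

/-- The translate of a component. -/
def Comp.smul {D : Set M} (g : FundamentalGroup M x₀) : Comp x₀ D → Comp x₀ D :=
  Quotient.map' (s₁ := compSetoid x₀ D) (s₂ := compSetoid x₀ D)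
    (fun p => ⟨Cov.tr g p.1, p.2⟩) fun _ _ h => sameComp_tr h g

/-- The set of all components. -/
def AllComp (x₀ : M) {V : Type} (D : V → Set M) : Type := Σ v, Comp x₀ (D v)

/-- The action. -/
instance actComp (x₀ : M) {V : Type} (D : V → Set M) :
    MulAction (FundamentalGroup M x₀) (AllComp x₀ D) where
  smul g x := ⟨x.1, Comp.smul g x.2⟩
  one_smul := by
    rintro ⟨v, x⟩
    induction x using Quotient.inductionOn' with
    | h p =>
      refine congrArg (Sigma.mk v) (congrArg (Quotient.mk _) (Subtype.ext (tr_one p.1)))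
  mul_smul := by
    rintro g h ⟨v, x⟩
    induction x using Quotient.inductionOn' with
    | h p =>
      refine congrArg (Sigma.mk v) (congrArg (Quotient.mk _) (Subtype.ext (tr_mul g h p.1)))

theorem reg : RegStatement := by
  intro M _ x₀ V D hD
  refine ⟨AllComp x₀ D, actComp x₀ D, fun v p h => ⟨v, Quotient.mk (compSetoid x₀ (D v)) ⟨p, h⟩⟩,
    ?_, ?_, ?_⟩
  · rintro ⟨v, x⟩
    induction x using Quotient.inductionOn' with
    | h p =>
      let X₀ : AllComp x₀ D := ⟨v, Quotient.mk'' p⟩
      have key : ∀ g : MulAction.stabilizer (FundamentalGroup M x₀) X₀,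
          SameComp (D v) (Cov.tr g.1 p.1) p.1 := by
        rintro ⟨g, hg⟩
        have h1 : (⟨v, Quotient.mk'' (⟨Cov.tr g p.1, p.2⟩ : Over x₀ (D v))⟩ : AllComp x₀ D) =
            ⟨v, Quotient.mk'' p⟩ := hg
        have h2 := eq_of_heq (Sigma.mk.inj h1).2
        exact Quotient.exact h2
      let ψ : MulAction.stabilizer (FundamentalGroup M x₀) X₀ →* loopsIn (D v) p.1.1 :=
        { toFun := fun g => ⟨cj p.1.2 g.1, cj_mem_loopsIn (key g)⟩
          map_one' := Subtype.ext (map_one _)
          map_mul' := fun g h => Subtype.ext (map_mul _ _ _) }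
      have h9 : SubexpGrowth (MulAction.stabilizer (FundamentalGroup M x₀) X₀) := by
        refine subexp_of_injective ψ ?_ (hD v p.1.1 p.2)
        intro g h hgh
        exact Subtype.ext (cj_injective p.1.2 (congrArg Subtype.val hgh))
      exact h9
  · intro v p h g
    rfl
  · intro v p q hp hq h
    exact congrArg (Sigma.mk v) (Quotient.sound h)

end

end Pool.Agent.Lib.MP_72b724_gt.H62
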