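import Pool.Agent.Lib.MP_72b724_gt.Interfaces

/-!
# Module SEPTHM: the separation theorem
-/

open scoped ENNReal Topology BigOperators
open MeasureTheory Set Filter Topology

namespace Pool.Agent.Lib.MP_72b724_gt.H62

noncomputable section

/-! ## Lists -/

section ListLemmas

variable {α : Type}

theorem flatten_sublist : ∀ {SS LL : List (List α)}, List.Forall₂ List.Sublist SS LL →
    SS.flatten.Sublist LL.flatten
  | [], [], _ => by simp
  | (a :: SS), (b :: LL), h => by
    rw [List.forall₂_cons] at h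
    rw [List.flatten_cons, List.flatten_cons]
    exact h.1.append (flatten_sublist h.2)

/-- The concatenation of `S (n-1), ..., S 0`. -/
def cat {n : ℕ} (S : Fin n → List α) : List α := ((List.ofFn S).reverse).flatten

theorem cat_sublist {n : ℕ} {S L : Fin n → List α} (h : ∀ k, (S k).Sublist (L k)) :
    (cat S).Sublist (cat L) := by
  apply flatten_sublist
  rw [List.forall₂_reverse_iff, List.forall₂_iff_get]
  refine ⟨by simp, fun i h₁ h₂ => ?_⟩
  simpa using h _

theorem mem_cat {n : ℕ} {S : Fin n → List α} {p : α} : p ∈ cat S ↔ ∃ k, p ∈ S k := by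
  simp [cat, List.mem_ofFn]

theorem length_cat {n : ℕ} (S : Fin n → List α) : (cat S).length = ∑ k, (S k).length := by
  rw [cat, List.length_flatten, List.map_reverse, List.sum_reverse, List.map_ofFn, List.sum_ofFn]
  rfl

theorem cat_singleton {n : ℕ} (p : Fin n → α) :
    cat (fun k => [p k]) = List.ofFn (fun k => p k.rev) := by
  have h : (List.ofFn fun k => [p k]) = (List.ofFn p).map (fun a => [a]) := by
    rw [List.map_ofFn]; rfl
  rw [cat, h, ← List.map_reverse, ← List.flatMap_def, List.flatMap_singleton']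
  apply List.ext_get
  · simp
  · intro i h₁ h₂
    simp only [List.get_eq_getElem, List.getElem_reverse, List.getElem_ofFn]
    congr 1
    apply Fin.ext
    simp [Fin.rev]
    omega

theorem exists_fn (l : List α) (m : ℕ) (h : l.length = m) : ∃ g : Fin m → α, List.ofFn g = l := by
  subst h
  exact ⟨l.get, List.ofFn_get l⟩

theorem pair_sublist {R : List α} {l j : ℕ} {p q : α} (hp : R[l]? = some p) (hq : R[j]? = some q)
    (h : l < j) : [p, q].Sublist R := by
  have h1 : p ∈ R.take (l + 1) := by
    apply List.mem_of_getElem? (i := l)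
    rw [List.getElem?_take]
    simp [hp]
  have h2 : q ∈ R.drop (l + 1) := by
    apply List.mem_of_getElem? (i := j - (l + 1))
    rw [List.getElem?_drop]
    rw [show l + 1 + (j - (l + 1)) = j by omega]
    exact hq
  have h3 := (List.singleton_sublist.2 h1).append (List.singleton_sublist.2 h2)
  rwa [List.take_append_drop] at h3

end ListLemmas

/-! ## Walls and slabs in terms of indices -/

section Walls

variable {M ι : Type} (f : ι → M → ℝ)

theorem mem_Wall_iff (L : List (ι × ℝ)) (x : M) : x ∈ Wall f L ↔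
    ∃ (l : ℕ) (p : ι × ℝ), L.reverse[l]? = some p ∧ f p.1 x = p.2 ∧
      ∀ (j : ℕ) (q : ι × ℝ), l < j → L.reverse[j]? = some q → q.2 ≤ f q.1 x := by
  induction L with
  | nil => simp [Wall]
  | cons p L ih =>
    rw [List.reverse_cons]
    change (f p.1 x = p.2 ∨ (p.2 ≤ f p.1 x ∧ x ∈ Wall f L)) ↔ _
    rw [ih]
    constructor
    · rintro (h | ⟨h, l, p', h1, h2, h3⟩)
      · refine ⟨L.reverse.length, p, ?_, h, ?_⟩
        · rw [List.getElem?_append_right le_rfl]; simp
        · intro j q hj hq
          rw [List.getElem?_append_right hj.le] at hq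
          obtain ⟨h4, -⟩ := List.getElem?_eq_some_iff.1 hq
          simp at h4
          simp at hj
          omega
      · have hl : l < L.reverse.length := (List.getElem?_eq_some_iff.1 h1).1
        refine ⟨l, p', ?_, h2, ?_⟩
        · rw [List.getElem?_append_left hl]; exact h1
        · intro j q hj hq
          rw [List.getElem?_append] at hq
          split_ifs at hq with h4
          · exact h3 j q hj hq
          · obtain ⟨h5, h6⟩ := List.getElem?_eq_some_iff.1 hq
            have h7 : j - L.reverse.length = 0 := by simpa using h5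
            rw [List.getElem_singleton] at h6
            rw [← h6]; exact h
    · rintro ⟨l, p', h1, h2, h3⟩
      rw [List.getElem?_append] at h1
      split_ifs at h1 with h4
      · right
        refine ⟨?_, l, p', h1, h2, ?_⟩
        · apply h3 L.reverse.length p h4
          rw [List.getElem?_append_right le_rfl]; simp
        · intro j q hj hq
          apply h3 j q hj
          rw [List.getElem?_append_left (List.getElem?_eq_some_iff.1 hq).1]
          exact hq
      · left
        obtain ⟨h5, h6⟩ := List.getElem?_eq_some_iff.1 h1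
        rw [List.getElem_singleton] at h6
        rw [h6]; exact h2

theorem mem_Slab_of (L : List (ι × ℝ)) (x : M) (ε : ℝ) (l : ℕ) (p : ι × ℝ)
    (h1 : L.reverse[l]? = some p) (h2 : p.2 ≤ f p.1 x) (h2' : f p.1 x < p.2 + ε)
    (h3 : ∀ (j : ℕ) (q : ι × ℝ), l < j → L.reverse[j]? = some q → q.2 ≤ f q.1 x) :
    x ∈ Slab f ε L := by
  induction L with
  | nil => simp at h1
  | cons p' L ih =>
    rw [List.reverse_cons] at h1 h3
    change ((p'.2 ≤ f p'.1 x ∧ f p'.1 x < p'.2 + ε) ∨ (p'.2 ≤ f p'.1 x ∧ x ∈ Slab f ε L))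
    rw [List.getElem?_append] at h1
    split_ifs at h1 with h4
    · right
      refine ⟨?_, ih h1 ?_⟩
      · apply h3 L.reverse.length p' h4
        rw [List.getElem?_append_right le_rfl]; simp
      · intro j q hj hq
        apply h3 j q hj
        rw [List.getElem?_append_left (List.getElem?_eq_some_iff.1 hq).1]
        exact hq
    · left
      obtain ⟨h5, h6⟩ := List.getElem?_eq_some_iff.1 h1
      rw [List.getElem_singleton] at h6
      rw [h6]; exact ⟨h2, h2'⟩

/-- The function of an entry. -/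
def uf : Option (ι × ℝ) → M → ℝ
  | some p => fun x => f p.1 x - p.2
  | none => fun _ => 1

/-- The functions of the lists, in the opposite order. -/
def uu {n : ℕ} (L : Fin n → List (ι × ℝ)) (N : ℕ) (k : Fin n) (l : Fin N) : M → ℝ :=
  uf f ((L k).reverse[(l : ℕ)]?)

theorem uu_of {n : ℕ} {L : Fin n → List (ι × ℝ)} {N : ℕ} {k : Fin n} {l : Fin N} {p : ι × ℝ}
    (h : (L k).reverse[(l : ℕ)]? = some p) (x : M) : uu f L N k l x = f p.1 x - p.2 := by
  rw [uu, h]; rfl

theorem uu_none {n : ℕ} {L : Fin n → List (ι × ℝ)} {N : ℕ} {k : Fin n} {l : Fin N}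
    (h : (L k).reverse[(l : ℕ)]? = none) (x : M) : uu f L N k l x = 1 := by
  rw [uu, h]; rfl

theorem uu_wall {n : ℕ} {L : Fin n → List (ι × ℝ)} {N : ℕ} {k : Fin n} (hN : (L k).length ≤ N)
    (x : M) : (∃ l : Fin N, uu f L N k l x = 0 ∧ ∀ j, l < j → 0 ≤ uu f L N k j x) ↔
      x ∈ Wall f (L k) := by
  rw [mem_Wall_iff]
  constructor
  · rintro ⟨l, h1, h2⟩
    rcases hl : (L k).reverse[(l : ℕ)]? with _ | p
    · rw [uu_none f hl] at h1; norm_num at h1
    · rw [uu_of f hl] at h1
      refine ⟨l, p, hl, by linarith, ?_⟩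
      intro j q hj hq
      have hjN : j < N := by
        have := (List.getElem?_eq_some_iff.1 hq).1
        rw [List.length_reverse] at this
        omega
      have h3 := h2 ⟨j, hjN⟩ hj
      rw [uu_of f (l := ⟨j, hjN⟩) hq] at h3
      linarith
  · rintro ⟨l, p, h1, h2, h3⟩
    have hlN : l < N := by
      have := (List.getElem?_eq_some_iff.1 h1).1
      rw [List.length_reverse] at this
      omega
    refine ⟨⟨l, hlN⟩, ?_, ?_⟩
    · rw [uu_of f (l := ⟨l, hlN⟩) h1]; linarith
    · intro j hj
      rcases hq : (L k).reverse[(j : ℕ)]? with _ | q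
      · rw [uu_none f hq]; norm_num
      · rw [uu_of f hq]
        have := h3 j q hj hq
        linarith

end Walls

/-! ## Regular points -/

section Reg

variable {M : Type} [MetricSpace M] [MeasurableSpace M] {vol : Measure M}

/-- Regularity is invariant under permutations of the coordinates and translations. -/
theorem regular_perm {n : ℕ} {F G : M → Fin n → ℝ} {z : M} (σ : Equiv.Perm (Fin n))
    (c : Fin n → ℝ) (h : ∀ x k, G x k = F x (σ k) - c k) (hF : Regular vol F z) :
    Regular vol G z := by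
  obtain ⟨ψ, W, h1, h2, h3, L, h4⟩ := hF
  let P : (Fin n → ℝ) ≃L[ℝ] (Fin n → ℝ) :=
    (LinearEquiv.funCongrLeft ℝ ℝ σ).toContinuousLinearEquiv
  refine ⟨ψ, W, h1, h2, h3, L.trans P, ?_⟩
  have h5 : HasFDerivAt (fun v => P (F (ψ v)) - c)
      ((P : (Fin n → ℝ) →L[ℝ] (Fin n → ℝ)).comp (L : EE n →L[ℝ] (Fin n → ℝ))) 0 :=
    ((P : (Fin n → ℝ) →L[ℝ] (Fin n → ℝ)).hasFDerivAt.comp 0 h4).sub_const c
  have h6 : (fun v => G (ψ v)) = fun v => P (F (ψ v)) - c := by
    funext v k
    rw [h]
    rfl
  rw [h6]
  exact h5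

end Reg

/-! ## The crossing points -/

section Cross

variable {M ι : Type} [MetricSpace M] [MeasurableSpace M] {vol : Measure M} {f : ι → M → ℝ}
  {n : ℕ} {L : Fin n → List (ι × ℝ)}

/-- The data of a point of the intersection of the walls. -/
def Data (f : ι → M → ℝ) (L : Fin n → List (ι × ℝ)) (z : M) (a : Fin n → ℕ)
    (p : Fin n → ι × ℝ) : Prop :=
  ∀ k, (L k).reverse[a k]? = some (p k) ∧ f (p k).1 z = (p k).2 ∧
    ∀ (j : ℕ) (q : ι × ℝ), a k < j → (L k).reverse[j]? = some q → q.2 ≤ f q.1 z

omit [MetricSpace M] [MeasurableSpace M] in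
theorem exists_data {z : M} (h : ∀ k, z ∈ Wall f (L k)) : ∃ a p, Data f L z a p := by
  have h' := fun k => (mem_Wall_iff f (L k) z).1 (h k)
  choose a p h1 using h'
  exact ⟨a, p, h1⟩

omit [MetricSpace M] [MeasurableSpace M] in
theorem no_double (hgen : ∀ l : Fin (n + 1) → ι × ℝ, (List.ofFn l).Sublist (cat L) →
      ¬ ∃ x, ∀ k, f (l k).1 x = (l k).2) {z : M} {a : Fin n → ℕ} {p : Fin n → ι × ℝ}
    (hd : Data f L z a p) (k : Fin n) (j : ℕ) (q : ι × ℝ) (hj : j ≠ a k)
    (hq : (L k).reverse[j]? = some q) : f q.1 z ≠ q.2 := by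
  classical
  intro hz
  let S : Fin n → List (ι × ℝ) := fun k' =>
    if k' = k then (if a k < j then [q, p k] else [p k, q]) else [p k']
  have hS : ∀ k', (S k').Sublist (L k') := by
    intro k'
    by_cases h : k' = k
    · subst h
      by_cases h2 : a k' < j
      · have h3 := pair_sublist (hd k').1 hq h2
        have h4 := List.reverse_sublist.2 h3
        simp only [List.reverse_reverse] at h4
        simpa [S, h2] using h4
      · have h2' : j < a k' := by omega
        have h3 := pair_sublist hq (hd k').1 h2'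
        have h4 := List.reverse_sublist.2 h3
        simp only [List.reverse_reverse] at h4
        simpa [S, h2] using h4
    · have h5 : p k' ∈ (L k').reverse := List.mem_of_getElem? (hd k').1
      simpa [S, h] using h5
  have hmem : ∀ k', ∀ r ∈ S k', f r.1 z = r.2 := by
    intro k' r hr
    by_cases h : k' = k
    · subst h
      by_cases h2 : a k' < j
      · simp only [S, h2, if_true] at hr
        simp only [List.mem_cons, List.not_mem_nil, or_false] at hr
        rcases hr with rfl | rfl
        · exact hz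
        · exact (hd k').2.1
      · simp only [S, h2, if_true, if_false] at hr
        simp only [List.mem_cons, List.not_mem_nil, or_false] at hr
        rcases hr with rfl | rfl
        · exact (hd k').2.1
        · exact hz
    · simp only [S, h, if_false] at hr
      simp only [List.mem_cons, List.not_mem_nil, or_false] at hr
      subst hr
      exact (hd k').2.1
  have hlen : (cat S).length = n + 1 := by
    rw [length_cat]
    have h1 : ∀ k', (S k').length = 1 + (if k' = k then 1 else 0) := by
      intro k'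
      by_cases h : k' = k
      · by_cases h2 : a k < j <;> simp [S, h, h2]
      · simp [S, h]
    rw [Finset.sum_congr rfl fun k' _ => h1 k', Finset.sum_add_distrib]
    simp
  obtain ⟨l, hl⟩ := exists_fn (cat S) (n + 1) hlen
  refine hgen l (by rw [hl]; exact cat_sublist hS) ⟨z, fun i => ?_⟩
  have h1 : l i ∈ cat S := by rw [← hl]; exact List.mem_ofFn.2 ⟨i, rfl⟩
  obtain ⟨k', hk'⟩ := mem_cat.1 h1
  exact hmem k' _ hk'

theorem data_regular (hgen : ∀ l : Fin n → ι × ℝ, (List.ofFn l).Sublist (cat L) →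
      ∀ x, (∀ k, f (l k).1 x = (l k).2) → Regular vol (fun y k => f (l k).1 y) x) {z : M}
    {a : Fin n → ℕ} {p : Fin n → ι × ℝ} (hd : Data f L z a p) :
    Regular vol (fun x k => f (p k).1 x - (p k).2) z := by
  have h1 : (List.ofFn (fun k : Fin n => p k.rev)).Sublist (cat L) := by
    rw [← cat_singleton]
    apply cat_sublist
    intro k
    rw [List.singleton_sublist]
    have := List.mem_of_getElem? (hd k).1
    simpa using this
  have h2 := hgen _ h1 z fun k => (hd k.rev).2.1
  refine regular_perm Fin.revPerm (fun k => (p k).2) ?_ h2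
  intro x k
  simp

theorem finite_cross (hfib : FibreStatement) [CompactSpace M] (hf : ∀ i, Continuous (f i))
    (hgen : ∀ l : Fin n → ι × ℝ, (List.ofFn l).Sublist (cat L) →
      ∀ x, (∀ k, f (l k).1 x = (l k).2) → Regular vol (fun y k => f (l k).1 y) x) :
    {x | ∀ k, x ∈ Wall f (L k)}.Finite := by
  have hT : {l : Fin n → ι × ℝ | (List.ofFn l).Sublist (cat L)}.Finite := by
    have h1 : {l : List (ι × ℝ) | l.Sublist (cat L)}.Finite := by
      have : {l : List (ι × ℝ) | l.Sublist (cat L)} ⊆ {l | l ∈ (cat L).sublists} := by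
        intro l hl
        exact List.mem_sublists.2 hl
      exact (List.finite_toSet _).subset this
    exact h1.preimage List.ofFn_injective.injOn
  have h2 : {x | ∀ k, x ∈ Wall f (L k)} ⊆
      ⋃ l ∈ {l : Fin n → ι × ℝ | (List.ofFn l).Sublist (cat L)},
        {x | (fun k => f (l k).1 x) = fun k => (l k).2} := by
    intro x hx
    obtain ⟨a, p, hd⟩ := exists_data hx
    refine mem_iUnion₂.2 ⟨fun k => p k.rev, ?_, ?_⟩
    · change (List.ofFn (fun k : Fin n => p k.rev)).Sublist (cat L)
      rw [← cat_singleton]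
      apply cat_sublist
      intro k
      rw [List.singleton_sublist]
      have := List.mem_of_getElem? (hd k).1
      simpa using this
    · funext k
      exact (hd k.rev).2.1
  refine (hT.biUnion fun l hl => ?_).subset h2
  refine hfib n M vol (fun x k => f (l k).1 x) ?_ _ ?_
  · exact continuous_pi fun k => hf _
  · intro x hx
    exact hgen l hl x fun k => congrFun hx k

/-- The lower bound of the volumes of the slabs. -/
theorem liminf_ge (hdens : DensStatement) [BorelSpace M] (hf : ∀ i, LipschitzWith 1 (f i))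
    (Z' : Finset M) (a : M → Fin n → ℕ) (p : M → Fin n → ι × ℝ)
    (hd : ∀ z ∈ Z', Data f L z (a z) (p z))
    (hnd : ∀ z ∈ Z', ∀ (k : Fin n) (j : ℕ) (q : ι × ℝ), j ≠ a z k → (L k).reverse[j]? = some q →
      f q.1 z ≠ q.2)
    (hreg : ∀ z ∈ Z', Regular vol (fun x k => f (p z k).1 x - (p z k).2) z)
    (e : ℕ → ℝ) (he : ∀ j, 0 < e j) (he0 : Tendsto e atTop (𝓝 0)) (i : ι) (s : ℝ)
    (hs : ∀ z ∈ Z', f i z < s) :
    (Z'.card : ℝ≥0∞) ≤ liminf (fun j => wv vol n (e j)
      ((⋂ k, Slab f (e j) (L k)) ∩ {x | f i x < s})) atTop := by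
  classical
  have hcont : ∀ i, Continuous (f i) := fun i => (hf i).continuous
  obtain ⟨U, hU1, hU2⟩ := (Z'.finite_toSet).t2_separation
  -- the neighbourhoods
  let Q : M → Set M := fun z => U z ∩ ({x | f i x < s} ∩
    ⋂ k : Fin n, ⋂ q ∈ {q | ∃ j, a z k < j ∧ (L k).reverse[j]? = some q}, {x | q.2 < f q.1 x})
  have hQopen : ∀ z, IsOpen (Q z) := by
    intro z
    refine (hU1 z).2.inter ((isOpen_lt (hcont i) continuous_const).inter ?_)
    refine isOpen_iInter_of_finite fun k => ?_
    have hfin : {q | ∃ j, a z k < j ∧ (L k).reverse[j]? = some q}.Finite := by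
      refine (List.finite_toSet (L k).reverse).subset ?_
      rintro q ⟨j, -, hj⟩
      exact List.mem_of_getElem? hj
    exact hfin.isOpen_biInter fun q _ => isOpen_lt continuous_const (hcont _)
  have hQmem : ∀ z ∈ Z', z ∈ Q z := by
    intro z hz
    refine ⟨(hU1 z).1, hs z hz, mem_iInter.2 fun k => mem_iInter₂.2 ?_⟩
    rintro q ⟨j, hj, hq⟩
    exact lt_of_le_of_ne ((hd z hz k).2.2 j q hj hq) (Ne.symm (hnd z hz k j q hj.ne' hq))
  let Bx : M → ℝ → Set M := fun z ε =>
    {x | ∀ k, f (p z k).1 z - (p z k).2 ≤ f (p z k).1 x - (p z k).2 ∧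
      f (p z k).1 x - (p z k).2 < f (p z k).1 z - (p z k).2 + ε}
  have hsub : ∀ z ∈ Z', ∀ ε, Q z ∩ Bx z ε ⊆ (⋂ k, Slab f ε (L k)) ∩ {x | f i x < s} := by
    rintro z hz ε x ⟨⟨-, hx1, hx2⟩, hx3⟩
    refine ⟨mem_iInter.2 fun k => ?_, hx1⟩
    obtain ⟨h1, h2, h3⟩ := hd z hz k
    refine mem_Slab_of f (L k) x ε (a z k) (p z k) h1 ?_ ?_ ?_
    · have := (hx3 k).1; linarith
    · have := (hx3 k).2; linarith
    · intro j q hj hq
      exact (mem_iInter₂.1 (mem_iInter.1 hx2 k) q ⟨j, hj, hq⟩ : q.2 < f q.1 x).le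
  have hmeas : ∀ z ε, MeasurableSet (Q z ∩ Bx z ε) := by
    intro z ε
    refine (hQopen z).measurableSet.inter ?_
    have : Bx z ε = ⋂ k, {x | f (p z k).1 z - (p z k).2 ≤ f (p z k).1 x - (p z k).2 ∧
      f (p z k).1 x - (p z k).2 < f (p z k).1 z - (p z k).2 + ε} := by
      ext x; simp [Bx]
    rw [this]
    refine MeasurableSet.iInter fun k => ?_
    have hm : Measurable fun x => f (p z k).1 x - (p z k).2 :=
      ((hcont _).sub continuous_const).measurable
    exact (measurableSet_le measurable_const hm).inter (measurableSet_lt hm measurable_const)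
  -- the estimate for a constant less than one
  have key : ∀ c : ℝ, 0 < c → c < 1 → (Z'.card : ℝ≥0∞) * ENNReal.ofReal c ≤
      liminf (fun j => wv vol n (e j) ((⋂ k, Slab f (e j) (L k)) ∩ {x | f i x < s})) atTop := by
    intro c hc0 hc
    refine le_liminf_of_le (by isBoundedDefault) ?_
    have h1 : ∀ z ∈ Z', ∀ᶠ ε in 𝓝[>] (0 : ℝ), ENNReal.ofReal (c * ε ^ n) ≤
        vol (Q z ∩ Bx z ε) := by
      intro z hz
      refine hdens n M vol (fun x k => f (p z k).1 x - (p z k).2) ?_ z (hreg z hz) (Q z)
        (hQopen z) (hQmem z hz) c hc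
      intro k
      have := (hf (p z k).1).sub (LipschitzWith.const ((p z k).2 : ℝ))
      simpa using this
    have h2 : ∀ᶠ ε in 𝓝[>] (0 : ℝ), ∀ z ∈ Z', ENNReal.ofReal (c * ε ^ n) ≤
        vol (Q z ∩ Bx z ε) := (Filter.eventually_all_finset Z').2 h1
    have h3 : Tendsto e atTop (𝓝[>] (0 : ℝ)) :=
      tendsto_nhdsWithin_iff.2 ⟨he0, Eventually.of_forall he⟩
    filter_upwards [h3.eventually h2] with j hj
    have hej := he j
    have h4 : (Z'.card : ℝ≥0∞) * ENNReal.ofReal (c * e j ^ n) ≤
        vol ((⋂ k, Slab f (e j) (L k)) ∩ {x | f i x < s}) := by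
      calc (Z'.card : ℝ≥0∞) * ENNReal.ofReal (c * e j ^ n)
          = ∑ z ∈ Z', ENNReal.ofReal (c * e j ^ n) := by simp
        _ ≤ ∑ z ∈ Z', vol (Q z ∩ Bx z (e j)) := Finset.sum_le_sum hj
        _ = vol (⋃ z ∈ Z', Q z ∩ Bx z (e j)) := by
            rw [measure_biUnion_finset]
            · intro z hz z' hz' hne
              exact (hU2 hz hz' hne).mono (fun x hx => hx.1.1) (fun x hx => hx.1.1)
            · intro z _; exact hmeas z _
        _ ≤ vol ((⋂ k, Slab f (e j) (L k)) ∩ {x | f i x < s}) := by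
            apply measure_mono
            exact iUnion₂_subset fun z hz => hsub z hz _
    calc (Z'.card : ℝ≥0∞) * ENNReal.ofReal c
        = ENNReal.ofReal ((e j ^ n)⁻¹) * ((Z'.card : ℝ≥0∞) * ENNReal.ofReal (c * e j ^ n)) := by
          rw [mul_left_comm, ← ENNReal.ofReal_mul (by positivity)]
          congr 2
          field_simp
      _ ≤ wv vol n (e j) ((⋂ k, Slab f (e j) (L k)) ∩ {x | f i x < s}) := by
          rw [wv]
          gcongr
  have h5 : Tendsto (fun c : ℝ => (Z'.card : ℝ≥0∞) * ENNReal.ofReal c) (𝓝[<] 1)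
      (𝓝 ((Z'.card : ℝ≥0∞) * ENNReal.ofReal 1)) := by
    refine (ENNReal.Tendsto.const_mul ?_ (Or.inr (by simp))).mono_left nhdsWithin_le_nhds
    exact (ENNReal.continuous_ofReal.tendsto 1)
  have h6 : (Z'.card : ℝ≥0∞) * ENNReal.ofReal 1 ≤
      liminf (fun j => wv vol n (e j) ((⋂ k, Slab f (e j) (L k)) ∩ {x | f i x < s})) atTop := by
    refine le_of_tendsto h5 ?_
    have h7 : ∀ᶠ c : ℝ in 𝓝[<] 1, 0 < c := by
      have : Ioo (0 : ℝ) 1 ∈ 𝓝[<] (1 : ℝ) := Ioo_mem_nhdsLT (by norm_num)
      filter_upwards [this] with c hc using hc.1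
    filter_upwards [h7, self_mem_nhdsWithin] with c hc hc'
    exact key c hc hc'
  simpa using h6

end Cross

/-! ## The theorem -/

theorem sepThm (hiter : SepIterStatement) (hgl : GenListStatement) (hfib : FibreStatement)
    (hdens : DensStatement) : SepThmStatement := by
  classical
  intro n hn M _ _ _ _ vol _ hNE ι _ f b hf hβ err herr
  have hcont : ∀ i, Continuous (f i) := fun i => (hf i).continuous
  obtain ⟨Gen, hG0, hG1, hG2, hG3⟩ := hgl n M vol hNE ι f hf
  obtain ⟨L, e, he, he0, hGL, hcov, hthr, hineq⟩ :=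
    hiter n M vol ι f b hcont Gen hG0 hG1 hβ err herr
  have hcat : catL L = cat L := rfl
  have hgen2 := hG2 _ hGL
  have hgen3 := hG3 _ hGL
  rw [hcat] at hgen2 hgen3
  let N := Finset.univ.sup fun k => (L k).length
  have hN : ∀ k, (L k).length ≤ N := fun k =>
    Finset.le_sup (f := fun k => (L k).length) (Finset.mem_univ k)
  have hfin : {x | ∀ k, x ∈ Wall f (L k)}.Finite := finite_cross (vol := vol) hfib hcont hgen2
  have hidx : ∀ (k : Fin n) (l : ℕ) (p : ι × ℝ), (L k).reverse[l]? = some p → l < N := by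
    intro k l p h
    have h1 := (List.getElem?_eq_some_iff.1 h).1
    rw [List.length_reverse] at h1
    exact h1.trans_le (hN k)
  refine ⟨N, uu f L N, hfin.toFinset, ?_, ?_, ?_, ?_, ?_⟩
  · intro k l
    rcases hl : (L k).reverse[(l : ℕ)]? with _ | p
    · right
      funext x
      rw [uu_none f hl]
    · left
      have hp : p ∈ L k := by
        have := List.mem_of_getElem? hl
        simpa using this
      refine ⟨p.1, p.2, (hthr k p hp).1, (hthr k p hp).2, ?_⟩
      funext x
      rw [uu_of f hl]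
  · intro k x
    obtain ⟨p, hp, hpx⟩ := hcov k x
    have hp' : p ∈ (L k).reverse := by simpa using hp
    obtain ⟨l, hl⟩ := List.mem_iff_getElem?.1 hp'
    refine ⟨⟨l, hidx k l p hl⟩, ?_⟩
    rw [uu_of f (l := ⟨l, hidx k l p hl⟩) hl]
    linarith
  · intro x
    rw [Set.Finite.mem_toFinset]
    exact forall_congr' fun k => uu_wall f (hN k) x
  · intro z hz
    rw [Set.Finite.mem_toFinset] at hz
    obtain ⟨a, p, hd⟩ := exists_data hz
    refine ⟨fun k => ⟨a k, hidx k _ _ (hd k).1⟩, ?_, ?_, ?_⟩
    · intro k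
      rw [uu_of f (l := ⟨a k, hidx k _ _ (hd k).1⟩) (hd k).1, (hd k).2.1, sub_self]
    · intro k j hj
      rcases hq : (L k).reverse[(j : ℕ)]? with _ | q
      · rw [uu_none f hq]; norm_num
      · rw [uu_of f hq]
        have hj' : (j : ℕ) ≠ a k := fun h => hj (Fin.ext h)
        exact sub_ne_zero.2 (no_double hgen3 hd k j q hj' hq)
    · have h1 := data_regular (vol := vol) hgen2 hd
      have h2 : (fun x (k : Fin n) => uu f L N k ⟨a k, hidx k _ _ (hd k).1⟩ x) =
          fun x k => f (p k).1 x - (p k).2 := by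
        funext x k
        rw [uu_of f (l := ⟨a k, hidx k _ _ (hd k).1⟩) (hd k).1]
      rw [h2]
      exact h1
  · intro i τ t Z' hZ' hτ hτ0 hτt ht
    have hwall : ∀ z ∈ Z', ∀ k, z ∈ Wall f (L k) := by
      intro z hz
      have := hZ' hz
      rwa [Set.Finite.mem_toFinset] at this
    have hch : ∀ z, ∃ (a : Fin n → ℕ) (p : Fin n → ι × ℝ), z ∈ Z' → Data f L z a p := by
      intro z
      by_cases hz : z ∈ Z'
      · obtain ⟨a, p, h⟩ := exists_data (hwall z hz)
        exact ⟨a, p, fun _ => h⟩
      · exact ⟨fun _ => 0, fun _ => (i, 0), fun h => absurd h hz⟩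
    choose a p hd using hch
    refine hineq i τ t Z'.card hτ0 hτt ht fun s hs => ?_
    refine liminf_ge hdens hf Z' a p hd (fun z hz => no_double hgen3 (hd z hz))
      (fun z hz => data_regular (vol := vol) hgen2 (hd z hz)) e he he0 i s
      fun z hz => (hτ z hz).trans_lt hs

end

end Pool.Agent.Lib.MP_72b724_gt.H62
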